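import Pool.Agent.H576R3.AF.Main

/-!
# The converse of the Omega-stability theorem for affine diffeomorphisms of tori

Uses the definitions of helper728 (`Pool.Agent.H728R2.OS`).
-/

set_option autoImplicit false

namespace Pool.Agent.Results.MP_814647_an.AffineDiffeos

open Pool.Agent.H728R2.OS

/-- Let `f (x) = A x + b` be an affine diffeomorphism of the torus `𝕋^d`, with `A` an invertible
integer matrix and `b` in `𝕋^d` arbitrary, and let `r ≤ ∞`. If `f` is `Ω`-stable in the space of
`C^r` diffeomorphisms of `𝕋^d`, then `A` has no eigenvalue of modulus one, the chain recurrent set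
of `f` is hyperbolic and contains the periodic points as a dense subset, `f` satisfies Axiom A, and
`f` has no cycles. -/
theorem result (d : ℕ) (r : ℕ∞) (A : Matrix (Fin d) (Fin d) ℤ) (hA : IsUnit A.det) (b : Torus d)
    (f : Torus d ≃ₜ Torus d) (hf : ∀ x i, f x i = ∑ j, A i j • x j + b i)
    (hs : OmegaStable toTorus r f) :
    (∀ μ : ℂ, ‖μ‖ = 1 → ¬ (A.map (Int.castRingHom ℂ)).charpoly.IsRoot μ) ∧
      ChainHyp toTorus f ∧ AxiomA toTorus f ∧ NoCycle f :=
  Pool.Agent.H576R3.AF.main hA hf hs

end Pool.Agent.Results.MP_814647_an.AffineDiffeos
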